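import Pool.Agent.ATP.Stmts

/-!
# Squad ATP, row ZCF: the centre and the subgroup `Uz`
-/

open scoped BigOperators

noncomputable section

namespace Pool.Agent.PP.TP.H39

open Pool.Agent.Helper51_AWC Pool.Agent.Helper79_WRA Pool.Agent.PP Pool.Agent.PP.KF
open Pool.Agent.PP.K9 Pool.Agent.PP.K9.H97 Pool.Agent.PP.H75 Pool.Agent.PP.T3 Pool.Agent.PP.T2
open Pool.Agent.PP.TB Pool.Agent.PP.TP

section

variable {G : Type} [Group G]

theorem mem_Zc {V : Subgroup G} {x : G} : x ∈ Zc V ↔ x ∈ V ∧ ∀ h ∈ V, h * x = x * h := by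
  unfold Zc
  rw [Subgroup.mem_inf, Subgroup.mem_centralizer_iff]
  exact Iff.rfl

theorem mem_cS {g : G} {P : Subgroup G} {x : G} : x ∈ conjS g P ↔ g⁻¹ * x * g ∈ P := by
  unfold conjS
  rw [Subgroup.mem_map]
  constructor
  · rintro ⟨y, hy, rfl⟩
    have h : g⁻¹ * (MulAut.conj g).toMonoidHom y * g = y := by
      change g⁻¹ * (g * y * g⁻¹) * g = y
      group
    rw [h]
    exact hy
  · intro h
    refine ⟨_, h, ?_⟩
    change g * (g⁻¹ * x * g) * g⁻¹ = x
    group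

theorem zc_le (V : Subgroup G) : Zc V ≤ V := inf_le_left

theorem le_cent_zc (V : Subgroup G) : V ≤ Subgroup.centralizer (Zc V : Set G) := by
  intro v hv
  rw [Subgroup.mem_centralizer_iff]
  intro h hh
  exact ((mem_Zc.mp hh).2 v hv).symm

theorem zc_comm (V : Subgroup G) : ∀ x ∈ Zc V, ∀ y ∈ Zc V, x * y = y * x := by
  intro x hx y hy
  exact (mem_Zc.mp hy).2 x (zc_le V hx)

theorem mem_norm {V : Subgroup G} {n : G} :
    n ∈ Subgroup.normalizer (V : Set G) ↔ ∀ x, x ∈ V ↔ n * x * n⁻¹ ∈ V := by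
  exact Subgroup.mem_normalizer_iff

theorem zc_norm (V : Subgroup G) :
    Subgroup.normalizer (V : Set G) ≤ Subgroup.normalizer (Zc V : Set G) := by
  have key : ∀ n ∈ Subgroup.normalizer (V : Set G), ∀ x, x ∈ Zc V → n * x * n⁻¹ ∈ Zc V := by
    intro n hn x hx
    rw [mem_Zc] at hx ⊢
    refine ⟨(mem_norm.mp hn x).mp hx.1, ?_⟩
    intro h hh
    have h1 : n⁻¹ * h * n ∈ V := by
      have h2 := (mem_norm.mp hn (n⁻¹ * h * n)).mpr
      apply h2
      have h3 : n * (n⁻¹ * h * n) * n⁻¹ = h := by group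
      rw [h3]
      exact hh
    have h4 := hx.2 _ h1
    calc h * (n * x * n⁻¹) = n * ((n⁻¹ * h * n) * x) * n⁻¹ := by group
      _ = n * (x * (n⁻¹ * h * n)) * n⁻¹ := by rw [h4]
      _ = n * x * n⁻¹ * h := by group
  intro n hn
  rw [mem_norm]
  intro x
  refine ⟨key n hn x, ?_⟩
  intro h
  have h1 := key n⁻¹ (inv_mem hn) _ h
  have h2 : n⁻¹ * (n * x * n⁻¹) * n⁻¹⁻¹ = x := by group
  rwa [h2] at h1

theorem zc_conj (V : Subgroup G) (g : G) : Zc (conjS g V) = conjS g (Zc V) := by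
  ext x
  rw [mem_Zc, mem_cS, mem_cS, mem_Zc]
  constructor
  · rintro ⟨h1, h2⟩
    refine ⟨h1, ?_⟩
    intro h hh
    have h3 : g * h * g⁻¹ ∈ conjS g V := by
      rw [mem_cS]
      have h4 : g⁻¹ * (g * h * g⁻¹) * g = h := by group
      rw [h4]
      exact hh
    have h5 := h2 _ h3
    calc h * (g⁻¹ * x * g) = g⁻¹ * (g * h * g⁻¹ * x) * g := by group
      _ = g⁻¹ * (x * (g * h * g⁻¹)) * g := by rw [h5]
      _ = g⁻¹ * x * g * h := by group
  · rintro ⟨h1, h2⟩
    refine ⟨h1, ?_⟩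
    intro h hh
    rw [mem_cS] at hh
    have h5 := h2 _ hh
    calc h * x = g * (g⁻¹ * h * g * (g⁻¹ * x * g)) * g⁻¹ := by group
      _ = g * (g⁻¹ * x * g * (g⁻¹ * h * g)) * g⁻¹ := by rw [h5]
      _ = x * h := by group

theorem zc_sub (V X : Subgroup G) (hX : V ≤ X) :
    Zc (V.subgroupOf X) = (Zc V).subgroupOf X := by
  ext x
  rw [mem_Zc, Subgroup.mem_subgroupOf, Subgroup.mem_subgroupOf, mem_Zc]
  constructor
  · rintro ⟨h1, h2⟩
    refine ⟨h1, ?_⟩
    intro h hh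
    have h3 := h2 ⟨h, hX hh⟩ (by rw [Subgroup.mem_subgroupOf]; exact hh)
    exact congrArg Subtype.val h3
  · rintro ⟨h1, h2⟩
    refine ⟨h1, ?_⟩
    intro h hh
    rw [Subgroup.mem_subgroupOf] at hh
    exact Subtype.ext (h2 _ hh)

end

theorem cent_anti {G : Type} [Group G] {A B : Subgroup G} (h : A ≤ B) :
    Subgroup.centralizer (B : Set G) ≤ Subgroup.centralizer (A : Set G) :=
  Subgroup.centralizer_le h

/-- an abelian finite group has an element whose order is the exponent -/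
theorem ex_order {G : Type} [Group G] [Finite G] (V : Subgroup G)
    (hab : ∀ x ∈ V, ∀ y ∈ V, x * y = y * x) : ∃ z ∈ V, orderOf z = Monoid.exponent V := by
  letI : CommGroup V := { (inferInstance : Group V) with
    mul_comm := fun x y => Subtype.ext (hab x x.2 y y.2) }
  have h1 : ∃ g : V, orderOf g = Monoid.exponent V := by
    have h2 := Monoid.exists_orderOf_eq_exponent (G := V) (Monoid.ExponentExists.of_finite)
    exact h2
  obtain ⟨g, hg⟩ := h1
  refine ⟨g, g.2, ?_⟩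
  rw [← hg]
  exact Subgroup.orderOf_coe g

theorem card_conjS {G : Type} [Group G] (g : G) (V : Subgroup G) :
    Nat.card (conjS g V) = Nat.card V := by
  unfold conjS
  exact (Nat.card_congr (V.equivMapOfInjective _ (MulAut.conj g).injective).toEquiv).symm

theorem card_subOf {G : Type} [Group G] (V X : Subgroup G) (h : V ≤ X) :
    Nat.card (V.subgroupOf X) = Nat.card V :=
  Nat.card_congr (Subgroup.subgroupOfEquivOfLe h).toEquiv

theorem zcf (pwu : T2.PwuStmt) : ZcfStmt := by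
  intro G _ _ V
  refine ⟨⟨zc_le V, le_cent_zc V, zc_comm V, zc_norm V, zc_conj V, zc_sub V⟩, ?_, ?_, ?_⟩
  · intro ℓ a
    obtain ⟨p1, p2, p3, p4, p5, p6, p7, p8⟩ := pwu G (ℓ ^ (a - 1)) (Zc V) (zc_comm V)
    have hsub : Uz ℓ a V ≤ Zc V := p2
    refine ⟨hsub, (le_cent_zc V).trans (cent_anti hsub), (zc_norm V).trans p3, ?_, ?_, ?_⟩
    · intro g
      change Uw (ℓ ^ (a - 1)) (Zc (conjS g V)) = _
      rw [zc_conj V g]
      exact p5 g
    · intro X hX
      change Uw (ℓ ^ (a - 1)) (Zc (V.subgroupOf X)) = _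
      rw [zc_sub V X hX]
      exact p7 X ((zc_le V).trans hX)
    · intro hℓ ha hexp
      haveI : Fact ℓ.Prime := ⟨hℓ⟩
      refine ⟨(p8 ℓ a ha hexp rfl).1, ?_⟩
      obtain ⟨z, hz, hz'⟩ := ex_order (Zc V) (zc_comm V)
      exact ⟨z, hz, hz'.trans hexp⟩
  · intro ℓ r p hCl
    obtain ⟨Z₀, hle, h1, h2⟩ := hCl
    have hab : ∀ x ∈ Z₀, ∀ y ∈ Z₀, x * y = y * x := fun x hx y hy =>
      zc_comm V x (hle hx) y (hle hy)
    obtain ⟨p1, p2, p3, p4, p5, p6, p7, p8⟩ := pwu G ℓ Z₀ hab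
    refine ⟨?_, ?_, ?_⟩
    · refine h1.trans (Nat.mul_le_mul_left _ ?_)
      exact Subgroup.card_le_of_le hle
    · intro g
      refine ⟨conjS g Z₀, ?_, ?_, ?_⟩
      · rw [zc_conj V g]
        intro x hx
        rw [mem_cS] at hx ⊢
        exact hle hx
      · rw [card_conjS, card_conjS]
        exact h1
      · rw [p5 g, card_conjS, card_conjS]
        exact h2
    · intro X hX
      have hZX : Z₀ ≤ X := hle.trans ((zc_le V).trans hX)
      refine ⟨Z₀.subgroupOf X, ?_, ?_, ?_⟩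
      · rw [zc_sub V X hX]
        intro x hx
        rw [Subgroup.mem_subgroupOf] at hx ⊢
        exact hle hx
      · rw [card_subOf V X hX, card_subOf Z₀ X hZX]
        exact h1
      · rw [p7 X hZX, card_subOf Z₀ X hZX, card_subOf _ X (p2.trans hZX)]
        exact h2
  · intro ℓ a hℓ hpg hz
    haveI : Fact ℓ.Prime := ⟨hℓ⟩
    obtain ⟨z, hz, hza⟩ := hz
    obtain ⟨w, hw, hw'⟩ := ex_order (Zc V) (zc_comm V)
    obtain ⟨k, hk⟩ := hpg ⟨w, zc_le V hw⟩
    have hk' : w ^ ℓ ^ k = 1 := by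
      have := congrArg Subtype.val hk
      simpa using this
    obtain ⟨a', -, ha'⟩ := (Nat.dvd_prime_pow hℓ).mp (orderOf_dvd_of_pow_eq_one hk')
    refine ⟨a', ?_, by rw [← hw', ha']⟩
    have hd : orderOf z ∣ Monoid.exponent (Zc V) := by
      have h1 : orderOf (⟨z, hz⟩ : Zc V) ∣ Monoid.exponent (Zc V) := Monoid.order_dvd_exponent _
      rwa [Subgroup.orderOf_mk] at h1
    rw [hza, ← hw', ha'] at hd
    exact (Nat.pow_dvd_pow_iff_le_right hℓ.one_lt).mp hd

end Pool.Agent.PP.TP.H39
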